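import Mathlib
import Pool.Agent.W976.MF.SPL

set_option autoImplicit false

/-! Project CC3: lifting a residue root to an embedding into `ℚ_[p]`. -/

namespace Pool.Agent.K1H52.CC

open NumberField Polynomial
open Pool.Agent.W976.MF (clear_den)

/-- a nonzero integer survives at all large primes -/
theorem nz (L : Type) [Field L] [NumberField L] (y : 𝓞 L) (hy : y ≠ 0) :
    ∃ N : ℕ, ∀ (p : ℕ) [Fact p.Prime], N < p →
      ∀ φ : 𝓞 L →+* AlgebraicClosure (ZMod p), φ y ≠ 0 := by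
  obtain ⟨r, hr, hd⟩ := (Algebra.IsAlgebraic.isAlgebraic (R := ℤ) y).exists_nonzero_dvd
    (mem_nonZeroDivisors_of_ne_zero hy)
  refine ⟨r.natAbs, ?_⟩
  intro p hp hN φ h
  obtain ⟨w, hw⟩ := hd
  have h1 : φ (algebraMap ℤ (𝓞 L) r) = 0 := by rw [hw, map_mul, h, zero_mul]
  have h2 : ((r : ℤ) : AlgebraicClosure (ZMod p)) = 0 := by simpa using h1
  have h3 : (p : ℤ) ∣ r := (CharP.intCast_eq_zero_iff (AlgebraicClosure (ZMod p)) p r).1 h2
  have h4 := Nat.le_of_dvd (Int.natAbs_pos.2 hr) (Int.natCast_dvd.1 h3)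
  omega

theorem sig (K : Type) [Field K] [NumberField K] : ∃ κ : 𝓞 K, ∃ N : ℕ,
    (∀ x : K, ∃ (m : ℕ) (h : ℤ[X]), m ≠ 0 ∧ (m : K) * x = aeval (κ : K) h) ∧
    ∀ (p : ℕ) [Fact p.Prime], N < p → ∀ a : ZMod p, aeval a (minpoly ℤ (κ : K)) = 0 →
      ∃ σ : K →+* ℚ_[p], ∃ t : ℤ_[p], σ κ = t ∧ PadicInt.toZMod t = a := by
  classical
  set pb := Field.powerBasisOfFiniteOfSeparable ℚ K with hpb
  have halg : IsAlgebraic ℤ pb.gen :=
    (IsFractionRing.isAlgebraic_iff ℤ ℚ K).2 (Algebra.IsAlgebraic.isAlgebraic pb.gen)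
  obtain ⟨d, hd, hy⟩ := halg.exists_integral_multiple
  have hdQ : (d : ℚ) ≠ 0 := by exact_mod_cast hd
  have hdK : (d : K) ≠ 0 := by exact_mod_cast hd
  set κ : 𝓞 K := ⟨d • pb.gen, hy⟩ with hκ
  have hκv : (κ : K) = (d : K) * pb.gen := by
    show d • pb.gen = _
    rw [zsmul_eq_mul]
  set G := minpoly ℤ (κ : K) with hG
  have hκi : IsIntegral ℤ (κ : K) := κ.2
  have hGm : G.Monic := minpoly.monic hκi
  have hGQ : minpoly ℚ (κ : K) = G.map (algebraMap ℤ ℚ) :=
    minpoly.isIntegrallyClosed_eq_field_fractions' ℚ hκi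
  have hsep : (G.map (algebraMap ℤ ℚ)).Separable := by
    rw [← hGQ]
    exact (minpoly.irreducible (hκi.tower_top (A := ℚ))).separable
  obtain ⟨u, v, N0, hN0, huv⟩ : ∃ (u v : ℤ[X]) (N0 : ℕ), N0 ≠ 0 ∧
      u * G + v * derivative G = C (N0 : ℤ) := by
    obtain ⟨a, b, hab⟩ := hsep
    obtain ⟨Da, pa, hDa, hpa⟩ := clear_den a
    obtain ⟨Db, pb', hDb, hpb'⟩ := clear_den b
    refine ⟨C (Db : ℤ) * pa, C (Da : ℤ) * pb', Da * Db, mul_ne_zero hDa hDb, ?_⟩
    apply Polynomial.map_injective (Int.castRingHom ℚ) Int.cast_injective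
    have e : ∀ n : ℕ, (Int.castRingHom ℚ) (n : ℤ) = (n : ℚ) := fun n => by simp
    have h3 : (C ((Da : ℚ) * Db) : ℚ[X]) = C ((Da : ℚ) * Db) * 1 := by rw [mul_one]
    have hab' : a * G.map (Int.castRingHom ℚ) + b * derivative (G.map (Int.castRingHom ℚ)) = 1 :=
      hab
    rw [Polynomial.map_add, Polynomial.map_mul, Polynomial.map_mul, Polynomial.map_mul,
      Polynomial.map_mul, map_C, map_C, map_C, ← derivative_map, hpa, hpb', e, e, e, Nat.cast_mul,
      h3, ← hab', C_mul]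
    ring
  refine ⟨κ, N0, ?_, ?_⟩
  · intro x
    obtain ⟨q, hq⟩ := pb.exists_eq_aeval' x
    obtain ⟨m, h, hm, hh⟩ := clear_den (q.comp (C (d : ℚ)⁻¹ * X))
    refine ⟨m, h, hm, ?_⟩
    have h1 : aeval (κ : K) (h.map (Int.castRingHom ℚ)) = aeval (κ : K) h :=
      aeval_map_algebraMap ℚ (κ : K) h
    rw [← h1, hh, map_mul, aeval_C, aeval_comp, hq]
    have h2 : aeval (κ : K) (C (d : ℚ)⁻¹ * X) = pb.gen := by
      rw [map_mul, aeval_C, aeval_X, hκv, map_inv₀]
      simp only [map_intCast]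
      field_simp
    rw [h2]
    simp
  · intro p hp hN a ha
    have hpN : ¬ p ∣ N0 := fun h => by
      have := Nat.le_of_dvd (Nat.pos_of_ne_zero hN0) h
      omega
    set n : ℤ := (a.val : ℤ) with hn
    have hna : ((n : ℤ) : ZMod p) = a := by rw [hn]; simp
    have hla : (p : ℤ) ∣ G.eval n := by
      rw [← ZMod.intCast_zmod_eq_zero_iff_dvd _ p]
      rw [← ha, ← hna]
      have h1 := Polynomial.eval₂_at_apply (p := G) (Int.castRingHom (ZMod p)) n
      exact h1.symm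
    have hder : ¬ (p : ℤ) ∣ (derivative G).eval n := by
      intro h
      have h1 := congrArg (eval n) huv
      rw [eval_add, eval_mul, eval_mul, eval_C] at h1
      have h2 : (p : ℤ) ∣ (N0 : ℤ) := by
        rw [← h1]
        exact dvd_add (hla.mul_left _) (h.mul_left _)
      exact hpN (by exact_mod_cast h2)
    have hev : ∀ g : ℤ[X], aeval ((n : ℤ) : ℤ_[p]) g = ((g.eval n : ℤ) : ℤ_[p]) := by
      intro g
      rw [aeval_def]
      have h1 := Polynomial.eval₂_at_apply (p := g) (Int.castRingHom ℤ_[p]) n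
      exact h1
    obtain ⟨t, ht, ht', -⟩ := hensels_lemma (p := p) (R := ℤ) (F := G) (a := ((n : ℤ) : ℤ_[p])) (by
      rw [hev, hev]
      have h1 : ‖(((derivative G).eval n : ℤ) : ℤ_[p])‖ = 1 := by
        refine le_antisymm (PadicInt.norm_le_one _) (not_lt.1 fun h => hder ?_)
        exact (PadicInt.norm_int_lt_one_iff_dvd _).1 h
      rw [h1, one_pow]
      exact (PadicInt.norm_int_lt_one_iff_dvd _).2 hla)
    have ht2 : aeval (t : ℚ_[p]) G = 0 := by
      have h1 := congrArg (algebraMap ℤ_[p] ℚ_[p]) ht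
      rw [map_zero] at h1
      rw [← h1]
      exact aeval_algebraMap_apply ℚ_[p] t G
    have htq : aeval (t : ℚ_[p]) (minpoly ℚ (κ : K)) = 0 := by
      rw [hGQ, aeval_map_algebraMap]
      exact ht2
    have hdp : ((d : ℤ) : ℚ_[p]) ≠ 0 := by exact_mod_cast hd
    have hdvd : minpoly ℚ (κ : K) ∣ (minpoly ℚ pb.gen).comp (C (d : ℚ)⁻¹ * X) := by
      apply minpoly.dvd
      rw [aeval_comp]
      have h2 : aeval (κ : K) (C (d : ℚ)⁻¹ * X) = pb.gen := by
        rw [map_mul, aeval_C, aeval_X, hκv, map_inv₀]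
        simp only [map_intCast]
        field_simp
      rw [h2, minpoly.aeval]
    have ht3 : aeval ((t : ℚ_[p]) / (d : ℚ_[p])) (minpoly ℚ pb.gen) = 0 := by
      obtain ⟨w, hw⟩ := hdvd
      have h1 := congrArg (aeval (t : ℚ_[p])) hw
      rw [map_mul, htq, zero_mul, aeval_comp] at h1
      have h2 : aeval (t : ℚ_[p]) (C (d : ℚ)⁻¹ * X) = (t : ℚ_[p]) / (d : ℚ_[p]) := by
        rw [map_mul, aeval_C, aeval_X, map_inv₀]
        simp only [map_intCast]
        field_simp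
      rw [h2] at h1
      exact h1
    refine ⟨(pb.lift ((t : ℚ_[p]) / (d : ℚ_[p])) ht3 : K →ₐ[ℚ] ℚ_[p]).toRingHom, t, ?_, ?_⟩
    · rw [hκv]
      have h1 : (pb.lift ((t : ℚ_[p]) / (d : ℚ_[p])) ht3) pb.gen = (t : ℚ_[p]) / (d : ℚ_[p]) :=
        pb.lift_gen _ ht3
      have h2 : (pb.lift ((t : ℚ_[p]) / (d : ℚ_[p])) ht3) ((d : K) * pb.gen) = t := by
        rw [map_mul, h1, map_intCast]
        field_simp
      exact h2
    · have h1 : ‖t - ((n : ℤ) : ℤ_[p])‖ < 1 := lt_of_lt_of_le ht' (PadicInt.norm_le_one _)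
      have h2 : t - ((n : ℤ) : ℤ_[p]) ∈ RingHom.ker (PadicInt.toZMod : ℤ_[p] →+* ZMod p) := by
        rw [PadicInt.ker_toZMod, IsLocalRing.mem_maximalIdeal, PadicInt.mem_nonunits]
        exact h1
      have h3 : PadicInt.toZMod (t - ((n : ℤ) : ℤ_[p])) = 0 := h2
      rw [map_sub, map_intCast, sub_eq_zero] at h3
      rw [h3, hna]

end Pool.Agent.K1H52.CC
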